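import Pool.Agent.L5helper29.AA.FamM
import Pool.Agent.L5helper29.AA.Concl
import Pool.Agent.L5helper19.AA.Mix
import Pool.Agent.L5helper29.AA.FinM

/-!
# Families over number fields: the Galois groups of the Frobenius eigenvalues, statements
-/

set_option autoImplicit false
set_option linter.all false

namespace Pool.Agent.L5helper29.OF

open Polynomial NumberField Finset Pool.Agent.W458.MF Pool.Agent.W521.Frob
open Pool.Agent.L5helper29.AA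

/-- Equidistribution: for two large primes `r ≠ r'` and homomorphisms `φ`, `φ'` of the ring of
integers of `K` to the fields with `r` and `r'` elements, the reductions of the tuples `(P j)`,
`(h i)` are distributed, for `n → ∞`, like the characteristic polynomials of independent random
matrices of size `N j` with determinant `δ j`, and like those (`weil`) of independent random symplectic
similitudes of size `2 g i` with multiplier `Q n`. -/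
def EquiV {K : Type} [Field K] [NumberField K] (Q : ℕ → ℕ) {J J' : Type} [Fintype J] [Fintype J']
    (N : J → ℕ) (g : J' → ℕ) (S : ℕ → Type) [∀ n, Fintype (S n)] (P : ∀ n, S n → J → (𝓞 K)[X])
    (h : ∀ n, S n → J' → ℤ[X]) (δ : ℕ → J → 𝓞 K) : Prop :=
  ∃ r₀ : ℕ, ∀ (r r' : ℕ) (φ : 𝓞 K →+* ZMod r) (φ' : 𝓞 K →+* ZMod r'), r.Prime → r'.Prime →
    r₀ ≤ r → r₀ ≤ r' → r ≠ r' → ∀ ε : ℝ, 0 < ε → ∃ n₀ : ℕ, ∀ n ≥ n₀, Nonempty (S n) →
      ∀ (E : J → Set (ZMod r)[X]) (E' : J → Set (ZMod r')[X]) (D : J' → Set (ZMod r)[X])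
        (D' : J' → Set (ZMod r')[X]),
        |({s : S n | (∀ j, (P n s j).map φ ∈ E j ∧ (P n s j).map φ' ∈ E' j) ∧
            ∀ i, (h n s i).map (Int.castRingHom (ZMod r)) ∈ D i ∧
              (h n s i).map (Int.castRingHom (ZMod r')) ∈ D' i}.ncard : ℝ) /
            (Nat.card (S n) : ℝ) -
          (∏ j, share (N j) r (φ (δ n j)) (E j) * share (N j) r' (φ' (δ n j)) (E' j)) *
            ∏ i, proportion (g i) r (Q n) (D i) * proportion (g i) r' (Q n) (D' i)| ≤ ε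

/-- A family with large monodromy over a ring of integers, with residues `S n` at the place number
`n`, with residue field with `Q n` elements: the characteristic polynomials `P n s j`, and
`weil (Q n) (h n s i)`, of the Frobenius on the parts `V_j` of unitary type and `V'_i` of symplectic
type of the members `s ∈ S n`. -/
structure BigFamilyV {K : Type} [Field K] [NumberField K] (τ : K →+* ℂ) (Q : ℕ → ℕ) {J J' : Type}
    [Fintype J] [Fintype J'] (N : J → ℕ) (g : J' → ℕ) (S : ℕ → Type) [∀ n, Fintype (S n)]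
    (P : ∀ n, S n → J → (𝓞 K)[X]) (h : ∀ n, S n → J' → ℤ[X]) (δ : ℕ → J → 𝓞 K) : Prop where
  one_lt : ∀ n, 1 < Q n
  coprime : ∀ r : ℕ, r.Prime → ∃ n₀ : ℕ, ∀ n ≥ n₀, ¬ r ∣ Q n
  three_le : ∀ j, 3 ≤ N j
  pos : ∀ i, 0 < g i
  monic : ∀ n s j, (P n s j).Monic
  natDegree : ∀ n s j, (P n s j).natDegree = N j
  monic' : ∀ n s i, (h n s i).Monic
  natDegree' : ∀ n s i, (h n s i).natDegree = g i
  norm : ∀ n s j (x : ℂ), IsRt τ (P n s j) x → ‖x‖ = Real.sqrt ((Q n : ℕ) : ℝ)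
  norm' : ∀ n s i (x : ℂ), aeval x (weil (Q n) (h n s i)) = 0 → ‖x‖ = Real.sqrt ((Q n : ℕ) : ℝ)
  dvd : ∀ n j, ∃ k : ℕ, δ n j ∣ (Q n : 𝓞 K) ^ k
  equi : EquiV Q N g S P h δ

/-- The Galois group over `K` of the eigenvalues is large. -/
structure GalFam {K : Type} [Field K] [NumberField K] (τ : K →+* ℂ) (Q : ℕ) {J J' : Type}
    (A : J → Finset ℂ) (A' : J' → Finset ℂ) : Prop where
  blk : ∀ j, Pool.Agent.L5helper29.AA.Blk (GK τ ∅) (A j)
  blkS : ∀ i, Pool.Agent.L5helper19.AA.BlkS Q (GK τ ∅) (A' i)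
  ind : Pool.Agent.L5helper29.AA.Independent (GK τ ∅) (Sum.elim A A')

/-- G1a: the patterns imply that the Galois group is large. -/
def St_PATG : Prop := ∀ (K : Type) [Field K] [NumberField K] (τ : K →+* ℂ) (J J' : Type)
  [Fintype J] [DecidableEq J] [Fintype J'] [DecidableEq J'] (Q : ℕ), 1 < Q →
  ∀ (P : J → (𝓞 K)[X]) (h : J' → ℤ[X]), (∀ j, (P j).Monic) →
  (∀ j, 3 ≤ (P j).natDegree) → (∀ i, (h i).Monic) → (∀ i, 0 < (h i).natDegree) →
  (∀ j x, IsRt τ (P j) x → ‖x‖ = Real.sqrt Q) →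
  (∀ i (x : ℂ), aeval x (weil Q (h i)) = 0 → ‖x‖ = Real.sqrt Q) →
  ∀ (e M : ℕ), 0 < e → 0 < M →
  (∀ j, ∀ z : ℂ, (∃ t : ℕ, 0 < t ∧ z ^ t = 1) →
    (∃ f : ℚ[X], f ≠ 0 ∧ f.natDegree ≤
      Module.finrank ℚ K * ((P j).natDegree * (P j).natDegree) ∧ aeval z f = 0) → z ^ e = 1) →
  (∀ i, ∀ z : ℂ, (∃ t : ℕ, 0 < t ∧ z ^ t = 1) →
    (∃ f : ℚ[X], f ≠ 0 ∧ f.natDegree ≤ 2 * (h i).natDegree ∧ aeval z f = 0) → z ^ M = 1) →
  (∀ j, ∃ (r : ℕ) (_ : Fact r.Prime) (φ : 𝓞 K →+* ZMod r), r ≠ 2 ∧ ¬ r ∣ Q ∧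
    (P j).map φ ∈ irrSet (P j).natDegree r ∧
    (∀ i, i ≠ j → (P i).map φ ∈ splitE (P i).natDegree e r) ∧
    ∀ i, (h i).map (Int.castRingHom (ZMod r)) ∈ splitSet (h i).natDegree r Q) →
  (∀ j, ∃ (r : ℕ) (_ : Fact r.Prime) (φ : 𝓞 K →+* ZMod r),
    (P j).map φ ∈ linIrr (P j).natDegree r) →
  (∀ j, ∃ (r : ℕ) (_ : Fact r.Prime) (φ : 𝓞 K →+* ZMod r),
    (P j).map φ ∈ splitE (P j).natDegree e r) →
  (∀ i, ∃ (r : ℕ) (_ : Fact r.Prime) (_ : 𝓞 K →+* ZMod r),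
    (h i).map (Int.castRingHom (ZMod r)) ∈ irrSet (h i).natDegree r) →
  (∀ i, ∃ (r : ℕ) (_ : Fact r.Prime) (φ : 𝓞 K →+* ZMod r), r ≠ 2 ∧ ¬ r ∣ Q ∧
    (h i).map (Int.castRingHom (ZMod r)) ∈ flipSet (h i).natDegree M r Q ∧
    (∀ i', i' ≠ i → (h i').map (Int.castRingHom (ZMod r)) ∈ splitSet (h i').natDegree r Q) ∧
    ∀ j, (P j).map φ ∈ splitE (P j).natDegree e r) →
  GalFam τ Q (fun j => rts τ (P j)) (fun i => rtsZ (weil Q (h i))) ∧
    (∀ j, (rts τ (P j)).card = (P j).natDegree) ∧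
    (∀ i, (rtsZ (weil Q (h i))).card = 2 * (h i).natDegree)

/-- G1b: the trick with tuples: an exceptional member costs a factor two of `#B !`. -/
def St_TRICK : Prop := ∀ (K : Type) [Field K] [NumberField K] (τ : K →+* ℂ) (J J' : Type)
  [Fintype J] [DecidableEq J] [Fintype J'] [DecidableEq J'] (Q r : ℕ), 1 < Q →
  ∀ (A : Fin r × J → Finset ℂ) (A' : Fin r × J' → Finset ℂ), GalFam τ Q A A' →
  ∀ B : Finset ℂ, (∀ z ∈ B, z ≠ 0) → (∀ σ ∈ GK τ ∅, ∀ z ∈ B, σ z ∈ B) → B.card.factorial < 2 ^ r →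
  ∃ x : Fin r, RelM Q (fun j => A (x, j)) (fun i => A' (x, i)) B

/-- G2: almost all residues have a large Galois group. -/
def St_ALMG : Prop := ∀ (K : Type) [Field K] [NumberField K] (τ : K →+* ℂ) (Q : ℕ → ℕ) (J J' : Type)
  [Fintype J] [DecidableEq J] [Fintype J'] [DecidableEq J'] (N : J → ℕ) (g : J' → ℕ) (S : ℕ → Type)
  [∀ n, Fintype (S n)] (P : ∀ n, S n → J → (𝓞 K)[X]) (h : ∀ n, S n → J' → ℤ[X])
  (δ : ℕ → J → 𝓞 K), BigFamilyV τ Q N g S P h δ → ∀ ε : ℝ, 0 < ε → ∃ n₀ : ℕ, ∀ n ≥ n₀,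
    ({s : S n | ¬ (GalFam τ (Q n) (fun j => rts τ (P n s j))
        (fun i => rtsZ (weil (Q n) (h n s i))) ∧ (∀ j, (rts τ (P n s j)).card = N j) ∧
        ∀ i, (rtsZ (weil (Q n) (h n s i))).card = 2 * g i)}.ncard : ℝ) ≤
      ε * (Nat.card (S n) : ℝ)

/-- G2t: tuples of members. -/
def St_TUP : Prop := ∀ (K : Type) [Field K] [NumberField K] (τ : K →+* ℂ) (Q : ℕ → ℕ) (J J' : Type)
  [Fintype J] [DecidableEq J] [Fintype J'] [DecidableEq J'] (N : J → ℕ) (g : J' → ℕ) (S : ℕ → Type)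
  [∀ n, Fintype (S n)] (P : ∀ n, S n → J → (𝓞 K)[X]) (h : ∀ n, S n → J' → ℤ[X])
  (δ : ℕ → J → 𝓞 K), BigFamilyV τ Q N g S P h δ → ∀ r : ℕ,
    BigFamilyV τ Q (fun x : Fin r × J => N x.2) (fun x : Fin r × J' => g x.2)
      (fun n => Fin r → S n) (fun n s x => P n (s x.1) x.2) (fun n s x => h n (s x.1) x.2)
      (fun n x => δ n x.2)

/-- G3: almost all residues are good relative to all small sets `B`, uniformly. -/
def St_UNI : Prop := ∀ (K : Type) [Field K] [NumberField K] (τ : K →+* ℂ) (Q : ℕ → ℕ) (J J' : Type)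
  [Fintype J] [DecidableEq J] [Fintype J'] [DecidableEq J'] (N : J → ℕ) (g : J' → ℕ) (S : ℕ → Type)
  [∀ n, Fintype (S n)] (P : ∀ n, S n → J → (𝓞 K)[X]) (h : ∀ n, S n → J' → ℤ[X])
  (δ : ℕ → J → 𝓞 K), BigFamilyV τ Q N g S P h δ → ∀ (b : ℕ) (ε : ℝ), 0 < ε → ∃ n₀ : ℕ, ∀ n ≥ n₀,
    ∀ B : Finset ℂ, B.card ≤ b → (∀ z ∈ B, z ≠ 0) → (∀ σ ∈ GK τ ∅, ∀ z ∈ B, σ z ∈ B) →
    ({s : S n | ¬ (GalFam τ (Q n) (fun j => rts τ (P n s j))
        (fun i => rtsZ (weil (Q n) (h n s i))) ∧ (∀ j, (rts τ (P n s j)).card = N j) ∧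
        (∀ i, (rtsZ (weil (Q n) (h n s i))).card = 2 * g i) ∧
        RelM (Q n) (fun j => rts τ (P n s j)) (fun i => rtsZ (weil (Q n) (h n s i))) B)}.ncard : ℝ) ≤
      ε * (Nat.card (S n) : ℝ)

end Pool.Agent.L5helper29.OF
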