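import Pool.Agent.L5helper29.OF.Kill
import Pool.Agent.L5helper19.OF.Main

/-!
# The one Frobenius theorem: assembly
-/

set_option autoImplicit false
set_option linter.all false

namespace Pool.Agent.L5helper29.OF

open Matrix Module Finset Pool.Agent.L5helper73.CC
open Pool.Agent.L5helper29.AA (RelM)
open Pool.Agent.L5helper73.TC (Symp om PP mm Coeff om_apply dat)
open Pool.Agent.L5helper19.TC (vv map_vv vv_equiv)

section

variable {K : Type} [Field K] {Y : Type} [AddCommGroup Y] [Module K Y] {I : Type}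

/-- the good operators -/
def goodSub (ω : Y →ₗ[K] Y →ₗ[K] K) (P : I → Y →ₗ[K] Y) : Submodule K (Y →ₗ[K] Y) where
  carrier := {X | Good ω P X}
  add_mem' := by
    intro X X' h h'
    refine ⟨fun i x => ?_, fun x y => ?_⟩
    · rw [LinearMap.add_apply, LinearMap.add_apply, map_add, h.com, h'.com]
    · rw [LinearMap.add_apply, LinearMap.add_apply, map_add, map_add, LinearMap.add_apply, h.skew,
        h'.skew]
      ring
  zero_mem' := ⟨fun i x => by simp, fun x y => by simp⟩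
  smul_mem' := by
    intro a X h
    refine ⟨fun i x => ?_, fun x y => ?_⟩
    · rw [LinearMap.smul_apply, LinearMap.smul_apply, map_smul, h.com]
    · rw [LinearMap.smul_apply, LinearMap.smul_apply, map_smul, map_smul, LinearMap.smul_apply,
        h.skew]
      simp

theorem good_bracket {ω : Y →ₗ[K] Y →ₗ[K] K} {P : I → Y →ₗ[K] Y} {X X' : Y →ₗ[K] Y}
    (h : Good ω P X) (h' : Good ω P X') : Good ω P (X ∘ₗ X' - X' ∘ₗ X) := by
  refine ⟨fun i x => ?_, fun x y => ?_⟩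
  · simp only [LinearMap.sub_apply, LinearMap.comp_apply]
    rw [h'.com, h.com, h.com, h'.com, map_sub]
  · simp only [LinearMap.sub_apply, LinearMap.comp_apply, map_sub]
    rw [h.skew, h'.skew, h'.skew, h.skew]
    ring

end

variable {Γ : Type} [Group Γ] {w u : ℕ} {ρ : Γ →* Matrix (Fin w) (Fin w) ℂ} {χ : Γ →* ℂˣ}
  {E : Matrix (Fin w) (Fin w) ℂ} {ρU : Γ →* Matrix (Fin u) (Fin u) ℂ}

theorem om_sim (hS : Symp ρ χ E) (γ : Γ) (x y : Fin w → ℂ) :
    om E ((ρ γ).mulVec x) ((ρ γ).mulVec y) = (χ γ : ℂ) * om E x y := by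
  rw [om_apply, om_apply, ← smul_eq_mul, ← dotProduct_smul, ← Matrix.smul_mulVec, ← hS.sim γ,
    Matrix.mul_assoc, ← Matrix.mulVec_mulVec, ← Matrix.mulVec_mulVec, Matrix.mulVec_transpose]
  rw [dotProduct_comm x, ← Matrix.dotProduct_mulVec, dotProduct_comm]

theorem good_conj {I : Type} [Fintype I] [DecidableEq I] {st : I → I}
    {P : I → Matrix (Fin w) (Fin w) ℂ} (hS : Symp ρ χ E)
    (hC : Coeff ρ E st P) (γ : Γ) {X : (Fin w → ℂ) →ₗ[ℂ] (Fin w → ℂ)}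
    (h : Good (om E) (PP P) X) :
    Good (om E) (PP P) (Matrix.toLin' (ρ γ) ∘ₗ X ∘ₗ Matrix.toLin' (ρ γ⁻¹)) := by
  have hc : ∀ (γ : Γ) i (x : Fin w → ℂ), (ρ γ).mulVec (PP P i x) = PP P i ((ρ γ).mulVec x) := by
    intro γ i x
    unfold PP
    rw [Matrix.toLin'_apply, Matrix.toLin'_apply, Matrix.mulVec_mulVec, Matrix.mulVec_mulVec,
      hC.comm]
  refine ⟨fun i x => ?_, fun x y => ?_⟩
  · simp only [LinearMap.comp_apply, Matrix.toLin'_apply]
    rw [hc, h.com, hc]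
  · simp only [LinearMap.comp_apply, Matrix.toLin'_apply]
    have hinv : ∀ z : Fin w → ℂ, (ρ γ).mulVec ((ρ γ⁻¹).mulVec z) = z := by
      intro z
      rw [Matrix.mulVec_mulVec, ← map_mul, mul_inv_cancel, map_one, Matrix.one_mulVec]
    conv_lhs => rw [← hinv y]
    conv_rhs => rw [← hinv x]
    rw [om_sim hS, om_sim hS, h.skew]
    ring


/-- irreducibility of the pieces for all subgroups of finite index -/
def Irr {I : Type} (ρ : Γ →* Matrix (Fin w) (Fin w) ℂ) (P : I → Matrix (Fin w) (Fin w) ℂ) : Prop :=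
  ∀ i, ∀ Δ : Subgroup Γ, Δ.FiniteIndex → ∀ W : Submodule ℂ (Fin w → ℂ),
    (∀ x ∈ W, (P i).mulVec x = x) → (∀ γ ∈ Δ, ∀ x ∈ W, (ρ γ).mulVec x ∈ W) →
      W = ⊥ ∨ ∀ x, (P i).mulVec x = x → x ∈ W

/-- the eigenvalues of a matrix on the pieces -/
def Spec {I : Type} (P : I → Matrix (Fin w) (Fin w) ℂ) (M : Matrix (Fin w) (Fin w) ℂ)
    (A : I → Finset ℂ) : Prop :=
  ∀ i, (P i).rank = (A i).card ∧
    ∀ α ∈ A i, ∃ x : Fin w → ℂ, x ≠ 0 ∧ (P i).mulVec x = x ∧ M.mulVec x = α • x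

/-- **the operators of trace zero kill the relative Tate forms** -/
theorem killed (hEX : St_EXTR) (hIR : St_IRRED) (hGE : St_GEN)
    {I : Type} [Fintype I] [DecidableEq I] {st : I → I}
    {P : I → Matrix (Fin w) (Fin w) ℂ} (hS : Symp ρ χ E) (hC : Coeff ρ E st P)
    (hI : Irr ρ P) {A : I → Finset ℂ} {q : ℂ} {b : Basis (Σ i, {x // x ∈ A i}) ℂ (Fin w → ℂ)}
    (hb : EigBasis (om E) (PP P) st A q b) {κ : Type} [Fintype κ] [DecidableEq κ]
    {T : (κ → Fin w) → Fin u → ℂ} {c : ℕ} {Δ : Subgroup Γ} (hΔ : Δ.FiniteIndex)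
    (hT : TateOn ρ χ ρU c Δ T) (hX : ∀ X, Cart (om E) (PP P) b X → Kills T X) :
    Pool.Agent.L5helper19.OF.Killed E P T := by
  have hD := dat hS hC
  let 𝔥 : Submodule ℂ ((Fin w → ℂ) →ₗ[ℂ] (Fin w → ℂ)) := killSub T ⊓ goodSub (om E) (PP P)
  have hbr : ∀ X ∈ 𝔥, ∀ X' ∈ 𝔥, X ∘ₗ X' - X' ∘ₗ X ∈ 𝔥 := fun X h X' h' =>
    ⟨kills_bracket h.1 h'.1, good_bracket h.2 h'.2⟩
  have hgood : ∀ X ∈ 𝔥, Good (om E) (PP P) X := fun X h => h.2
  have hcart : ∀ X, Cart (om E) (PP P) b X → X ∈ 𝔥 := fun X h => ⟨hX X h, h.1⟩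
  have hex := hEX ℂ (Fin w → ℂ) I (om E) (PP P) st hD A q b hb 𝔥 hbr hgood hcart
  let g : Γ →* ((Fin w → ℂ) →ₗ[ℂ] (Fin w → ℂ)) :=
    { toFun := fun γ => Matrix.toLin' (ρ γ)
      map_one' := by rw [map_one, Matrix.toLin'_one]; rfl
      map_mul' := fun x y => by rw [map_mul, Matrix.toLin'_mul]; rfl }
  have hir := hIR ℂ (Fin w → ℂ) I (om E) (PP P) st hD A q b hb 𝔥 hbr hgood hex Γ g
    (fun γ i x => by
      change Matrix.toLin' (ρ γ) (PP P i x) = PP P i (Matrix.toLin' (ρ γ) x)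
      unfold PP
      rw [Matrix.toLin'_apply, Matrix.toLin'_apply, Matrix.toLin'_apply, Matrix.toLin'_apply,
        Matrix.mulVec_mulVec, Matrix.mulVec_mulVec, hC.comm])
    (fun i Δ' hΔ' W h1 h2 => hI i Δ' hΔ' W h1 h2) Δ hΔ
    (fun γ hγ X h => ⟨kills_conj hT hγ h.1, good_conj hS hC γ h.2⟩) hcart
  have hall := hGE ℂ (Fin w → ℂ) I (om E) (PP P) st hD A q b hb 𝔥 hcart hir
  intro f X h1 h2 v
  exact (hall X h1 h2).1 f v

end Pool.Agent.L5helper29.OF
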