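import Pool.Agent.L5helper19.TC.Rel1
import Pool.Agent.L5helper29.AA.Half

/-!
# Large monodromy from one Frobenius element, relative to an arbitrary representation: statements
-/

set_option autoImplicit false
set_option linter.all false

namespace Pool.Agent.L5helper29.OF

open Matrix Module Finset Pool.Agent.L5helper73.CC
open Pool.Agent.L5helper29.AA (RelM)
open Pool.Agent.L5helper73.TC (Symp om PP mm)

section

variable {K : Type} [Field K] {Y : Type} [AddCommGroup Y] [Module K Y] {I : Type}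

/-- An adapted eigenbasis: `b ⟨i, α⟩` is in the image of `P i`, `α ∈ A i`; `b a` and `b c` are
orthogonal unless `c` is the index dual to `a`. -/
structure EigBasis (ω : Y →ₗ[K] Y →ₗ[K] K) (P : I → Y →ₗ[K] Y) (st : I → I) (A : I → Finset K)
    (q : K) (b : Basis (Σ i, {x // x ∈ A i}) K Y) : Prop where
  mem : ∀ a, P a.1 (b a) = b a
  ne_zero : ∀ i, ∀ x ∈ A i, x ≠ 0
  q_ne : q ≠ 0
  dual : ∀ i, ∀ x ∈ A i, q / x ∈ A (st i)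
  orth : ∀ a c, ω (b a) (b c) ≠ 0 → c.1 = st a.1 ∧ (a.2 : K) * c.2 = q

/-- the dual index -/
def dl (st : I → I) {A : I → Finset K} {q : K} (h : ∀ i, ∀ x ∈ A i, q / x ∈ A (st i))
    (a : Σ i, {x // x ∈ A i}) : Σ i, {x // x ∈ A i} :=
  ⟨st a.1, ⟨q / a.2, h a.1 a.2 a.2.2⟩⟩

/-- the operator `z ↦ ω (x, z) y + ω (y, z) x` -/
def Rop (ω : Y →ₗ[K] Y →ₗ[K] K) (x y : Y) : Y →ₗ[K] Y :=
  (ω x).smulRight y + (ω y).smulRight x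

/-- The operator is good, diagonal and has trace zero on all pieces. -/
def Cart (ω : Y →ₗ[K] Y →ₗ[K] K) (P : I → Y →ₗ[K] Y) {A : I → Finset K}
    (b : Basis (Σ i, {x // x ∈ A i}) K Y) (X : Y →ₗ[K] Y) : Prop :=
  Good ω P X ∧ (∀ i, tr P X i = 0) ∧ ∀ a, ∃ z : K, X (b a) = z • b a

/-- L1a: extraction of the elementary operators. -/
def St_EXTR : Prop := ∀ (K : Type) [Field K] [CharZero K] (Y : Type) [AddCommGroup Y] [Module K Y]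
  [FiniteDimensional K Y] (I : Type) [Fintype I] [DecidableEq I] (ω : Y →ₗ[K] Y →ₗ[K] K)
  (P : I → Y →ₗ[K] Y) (st : I → I), Dat ω P st →
  ∀ (A : I → Finset K) (q : K) (b : Basis (Σ i, {x // x ∈ A i}) K Y) (hb : EigBasis ω P st A q b)
    (𝔥 : Submodule K (Y →ₗ[K] Y)), (∀ X ∈ 𝔥, ∀ X' ∈ 𝔥, X ∘ₗ X' - X' ∘ₗ X ∈ 𝔥) →
    (∀ X ∈ 𝔥, Good ω P X) → (∀ X, Cart ω P b X → X ∈ 𝔥) →
    ∀ (a c : Σ i, {x // x ∈ A i}), a ≠ c → ∀ X ∈ 𝔥, b.repr (X (b a)) c ≠ 0 →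
      Rop ω (b c) (b (dl st hb.dual a)) ∈ 𝔥

/-- L1b: irreducibility. -/
def St_IRRED : Prop := ∀ (K : Type) [Field K] [CharZero K] (Y : Type) [AddCommGroup Y] [Module K Y]
  [FiniteDimensional K Y] (I : Type) [Fintype I] [DecidableEq I] (ω : Y →ₗ[K] Y →ₗ[K] K)
  (P : I → Y →ₗ[K] Y) (st : I → I), Dat ω P st →
  ∀ (A : I → Finset K) (q : K) (b : Basis (Σ i, {x // x ∈ A i}) K Y) (hb : EigBasis ω P st A q b)
    (𝔥 : Submodule K (Y →ₗ[K] Y)), (∀ X ∈ 𝔥, ∀ X' ∈ 𝔥, X ∘ₗ X' - X' ∘ₗ X ∈ 𝔥) →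
    (∀ X ∈ 𝔥, Good ω P X) →
    (∀ (a c : Σ i, {x // x ∈ A i}), a ≠ c → ∀ X ∈ 𝔥, b.repr (X (b a)) c ≠ 0 →
      Rop ω (b c) (b (dl st hb.dual a)) ∈ 𝔥) →
    ∀ (Γ : Type) [Group Γ] (g : Γ →* (Y →ₗ[K] Y)), (∀ γ i x, g γ (P i x) = P i (g γ x)) →
    (∀ i, ∀ Δ : Subgroup Γ, Δ.FiniteIndex → ∀ W : Submodule K Y, (∀ x ∈ W, P i x = x) →
      (∀ γ ∈ Δ, ∀ x ∈ W, g γ x ∈ W) → W = ⊥ ∨ ∀ x, P i x = x → x ∈ W) →
    ∀ Δ₀ : Subgroup Γ, Δ₀.FiniteIndex → (∀ γ ∈ Δ₀, ∀ X ∈ 𝔥, g γ ∘ₗ X ∘ₗ g γ⁻¹ ∈ 𝔥) →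
    -- the weights of the diagonal operators separate the basis vectors of each piece
    (∀ X, Cart ω P b X → X ∈ 𝔥) →
    ∀ (a c : Σ i, {x // x ∈ A i}), a.1 = c.1 → a ≠ c → Rop ω (b c) (b (dl st hb.dual a)) ∈ 𝔥

/-- L1c: generation. -/
def St_GEN : Prop := ∀ (K : Type) [Field K] [CharZero K] (Y : Type) [AddCommGroup Y] [Module K Y]
  [FiniteDimensional K Y] (I : Type) [Fintype I] [DecidableEq I] (ω : Y →ₗ[K] Y →ₗ[K] K)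
  (P : I → Y →ₗ[K] Y) (st : I → I), Dat ω P st →
  ∀ (A : I → Finset K) (q : K) (b : Basis (Σ i, {x // x ∈ A i}) K Y) (hb : EigBasis ω P st A q b)
    (𝔥 : Submodule K (Y →ₗ[K] Y)), (∀ X, Cart ω P b X → X ∈ 𝔥) →
    (∀ (a c : Σ i, {x // x ∈ A i}), a.1 = c.1 → a ≠ c → Rop ω (b c) (b (dl st hb.dual a)) ∈ 𝔥) →
    ∀ X, Good ω P X → (∀ i, tr P X i = 0) → X ∈ 𝔥

end

/-- the index set of the pieces -/
abbrev Idx (J J' : Type) : Type := (J × Bool) ⊕ J'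

/-- the involution of the index set -/
def star {J J' : Type} : Idx J J' → Idx J J'
  | Sum.inl (j, b) => Sum.inl (j, !b)
  | Sum.inr i => Sum.inr i

/-- the eigenvalues on the pieces -/
noncomputable def spec {J J' : Type} (Q : ℕ) (A : J → Finset ℂ) (A' : J' → Finset ℂ) :
    Idx J J' → Finset ℂ
  | Sum.inl (j, true) => A j
  | Sum.inl (j, false) => (A j).image fun x => (Q : ℂ) / x
  | Sum.inr i => A' i

/-- the equation of a relative Tate form, on the subgroup `Δ` -/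
def TateOn {Γ : Type} [Group Γ] {w u : ℕ} (ρ : Γ →* Matrix (Fin w) (Fin w) ℂ) (χ : Γ →* ℂˣ)
    (ρU : Γ →* Matrix (Fin u) (Fin u) ℂ) {κ : Type} [Fintype κ] [DecidableEq κ] (c : ℕ)
    (Δ : Subgroup Γ) (T : (κ → Fin w) → Fin u → ℂ) : Prop :=
  ∀ γ ∈ Δ, ∀ J, ∑ J' : κ → Fin w, (∏ k, ρ γ (J' k) (J k)) • T J' =
    (χ γ : ℂ) ^ c • (ρU γ).mulVec (T J)

/-- the operator kills all coordinates of the form -/
def Kills {w u : ℕ} {κ : Type} [Fintype κ] [DecidableEq κ] (T : (κ → Fin w) → Fin u → ℂ)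
    (X : (Fin w → ℂ) →ₗ[ℂ] (Fin w → ℂ)) : Prop :=
  ∀ (f : (Fin u → ℂ) →ₗ[ℂ] ℂ) (v : κ → Fin w → ℂ), act (mm fun J => f (T J)) X v = 0

/-- L2: the diagonal operators kill the relative Tate forms. -/
def St_TORUS : Prop := ∀ (Γ : Type) [Group Γ] (w u : ℕ) (ρ : Γ →* Matrix (Fin w) (Fin w) ℂ)
  (χ : Γ →* ℂˣ) (E : Matrix (Fin w) (Fin w) ℂ) (J J' : Type) [Fintype J] [DecidableEq J]
  [Fintype J'] [DecidableEq J'] (P : Idx J J' → Matrix (Fin w) (Fin w) ℂ)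
  (ρU : Γ →* Matrix (Fin u) (Fin u) ℂ), Symp ρ χ E →
  Pool.Agent.L5helper73.TC.Coeff ρ E star P →
  ∀ (φ : Γ) (Q : ℕ), 1 < Q → (χ φ : ℂ) = Q → ∀ (A : J → Finset ℂ) (A' : J' → Finset ℂ)
    (B : Finset ℂ), RelM Q A A' B → (∀ z ∈ B, z ≠ 0) → (∀ j, ∀ x ∈ A j, x ≠ 0) →
    (∀ i, ∀ x ∈ A' i, x ≠ 0) → (∀ i, ∀ x ∈ A' i, (Q : ℂ) / x ∈ A' i) →
    (∀ ν : ℂ, Module.End.HasEigenvalue (Matrix.toLin' (ρU φ)) ν → ν ∈ B) →
    ∀ (b : Basis (Σ i, {x // x ∈ spec Q A A' i}) ℂ (Fin w → ℂ)),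
      EigBasis (om E) (PP P) star (spec Q A A') (Q : ℂ) b →
      (∀ a, (ρ φ).mulVec (b a) = (a.2 : ℂ) • b a) →
      ∀ (κ : Type) [Fintype κ] [DecidableEq κ] (T : (κ → Fin w) → Fin u → ℂ) (c : ℕ)
        (Δ : Subgroup Γ), Δ.FiniteIndex → TateOn ρ χ ρU c Δ T →
        ∀ X, Cart (om E) (PP P) b X → Kills T X

end Pool.Agent.L5helper29.OF
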