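import Pool.Agent.L5helper29.OF.Defs

/-!
# Bilinear forms killed by the good operators of trace zero: statement
-/

set_option autoImplicit false
set_option linter.all false

namespace Pool.Agent.L5helper29.OF

open Matrix Module Finset Pool.Agent.L5helper73.CC

/-- B1: the bilinear forms killed by all good operators with trace zero on all pieces are the
combinations of the forms `ω (P i x) y`. -/
def St_BIL : Prop := ∀ (K : Type) [Field K] [CharZero K] (Y : Type) [AddCommGroup Y] [Module K Y]
  [FiniteDimensional K Y] (I : Type) [Fintype I] [DecidableEq I] (ω : Y →ₗ[K] Y →ₗ[K] K)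
  (P : I → Y →ₗ[K] Y) (st : I → I), Dat ω P st →
  ∀ (A : I → Finset K) (q : K) (b : Basis (Σ i, {x // x ∈ A i}) K Y) (hb : EigBasis ω P st A q b),
    (∀ i, st i ≠ i → 3 ≤ (A i).card ∨ A i = ∅) → ∀ B : Y →ₗ[K] Y →ₗ[K] K,
    (∀ X, Good ω P X → (∀ i, tr P X i = 0) → ∀ x y, B (X x) y + B x (X y) = 0) →
    ∃ c : I → K, ∀ x y, B x y = ∑ i, c i * ω (P i x) y

end Pool.Agent.L5helper29.OF
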