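import Pool.Agent.L5helper29.OF.Asm

/-!
# The eigenbasis
-/

set_option autoImplicit false
set_option linter.all false

namespace Pool.Agent.L5helper29.OF

open Matrix Module Finset Pool.Agent.L5helper73.CC
open Pool.Agent.L5helper29.AA (RelM)
open Pool.Agent.L5helper73.TC (Symp om PP mm Coeff om_apply dat)

variable {Γ : Type} [Group Γ] {w u : ℕ} {ρ : Γ →* Matrix (Fin w) (Fin w) ℂ} {χ : Γ →* ℂˣ}
  {E : Matrix (Fin w) (Fin w) ℂ} {ρU : Γ →* Matrix (Fin u) (Fin u) ℂ}

theorem rank_eq_trace {P : Matrix (Fin w) (Fin w) ℂ} (h : P * P = P) :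
    (P.rank : ℂ) = P.trace := by
  have h1 : IsIdempotentElem (Matrix.toLin' P) := by
    unfold IsIdempotentElem
    rw [Module.End.mul_eq_comp, ← Matrix.toLin'_mul, h]
  have h2 := (LinearMap.IsIdempotentElem.isProj_range _ h1).trace
  rw [Matrix.trace_toLin'_eq] at h2
  rw [h2]
  rfl

theorem sum_rank {I : Type} [Fintype I] [DecidableEq I] {st : I → I}
    {P : I → Matrix (Fin w) (Fin w) ℂ} (hC : Coeff ρ E st P) : ∑ i, (P i).rank = w := by
  have h1 : ((∑ i, (P i).rank : ℕ) : ℂ) = w := by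
    rw [Nat.cast_sum, Finset.sum_congr rfl fun i _ => rank_eq_trace (hC.idem i),
      ← Matrix.trace_sum, hC.sum, Matrix.trace_one, Fintype.card_fin]
  exact_mod_cast h1

/-- **the eigenbasis** -/
theorem exists_eigBasis {I : Type} [Fintype I] [DecidableEq I] {st : I → I}
    {P : I → Matrix (Fin w) (Fin w) ℂ} (hS : Symp ρ χ E) (hC : Coeff ρ E st P) {φ : Γ} {Q : ℂ}
    (hQ : Q ≠ 0) (hχ : (χ φ : ℂ) = Q) {A : I → Finset ℂ} (hsp : Spec P (ρ φ) A)
    (h0 : ∀ i, ∀ x ∈ A i, x ≠ 0) (hd : ∀ i, ∀ x ∈ A i, Q / x ∈ A (st i)) :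
    ∃ b : Basis (Σ i, {x // x ∈ A i}) ℂ (Fin w → ℂ),
      EigBasis (om E) (PP P) st A Q b ∧ ∀ a, (ρ φ).mulVec (b a) = (a.2 : ℂ) • b a := by
  classical
  choose x hx0 hx1 hx2 using fun (a : Σ i, {x // x ∈ A i}) => (hsp a.1).2 a.2 a.2.2
  have hP0 : ∀ i (a : Σ i, {x // x ∈ A i}), a.1 ≠ i → (P i).mulVec (x a) = 0 := by
    intro i a hi
    rw [← hx1 a, Matrix.mulVec_mulVec, hC.orth i a.1 (fun h => hi h.symm), Matrix.zero_mulVec]
  have hli1 : ∀ i, LinearIndependent ℂ (fun α : {x // x ∈ A i} => x ⟨i, α⟩) := by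
    intro i
    refine Module.End.eigenvectors_linearIndependent' (Matrix.toLin' (ρ φ))
      (fun α : {x // x ∈ A i} => (α : ℂ)) Subtype.val_injective _ fun α => ?_
    refine ⟨?_, hx0 _⟩
    rw [Module.End.mem_eigenspace_iff, Matrix.toLin'_apply]
    exact hx2 ⟨i, α⟩
  have hli : LinearIndependent ℂ x := by
    rw [Fintype.linearIndependent_iff]
    rintro g hg ⟨i, α⟩
    rw [Fintype.sum_sigma] at hg
    have h1 := congrArg (fun y => (P i).mulVecLin y) hg
    simp only [map_zero, map_sum] at h1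
    have h2 : ∀ j, ∑ β : {x // x ∈ A j}, (P i).mulVecLin (g ⟨j, β⟩ • x ⟨j, β⟩) =
        if j = i then ∑ β : {x // x ∈ A j}, g ⟨j, β⟩ • x ⟨j, β⟩ else 0 := by
      intro j
      split_ifs with hj
      · subst hj
        refine Finset.sum_congr rfl fun β _ => ?_
        rw [map_smul, Matrix.mulVecLin_apply, hx1 ⟨j, β⟩]
      · refine Finset.sum_eq_zero fun β _ => ?_
        rw [map_smul, Matrix.mulVecLin_apply, hP0 i ⟨j, β⟩ hj, smul_zero]
    rw [Finset.sum_congr rfl fun j _ => h2 j, Finset.sum_ite_eq' univ i, if_pos (mem_univ i)] at h1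
    exact Fintype.linearIndependent_iff.1 (hli1 i) (fun β => g ⟨i, β⟩) h1 α
  have hcard : Fintype.card (Σ i, {x // x ∈ A i}) = Module.finrank ℂ (Fin w → ℂ) := by
    rw [Module.finrank_fin_fun, Fintype.card_sigma, ← sum_rank hC]
    refine Finset.sum_congr rfl fun i _ => ?_
    rw [Fintype.card_coe, (hsp i).1]
  let b : Basis (Σ i, {x // x ∈ A i}) ℂ (Fin w → ℂ) :=
    if hne : Nonempty (Σ i, {x // x ∈ A i}) then
      basisOfLinearIndependentOfCardEqFinrank hli hcard
    else by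
      haveI := not_nonempty_iff.1 hne
      haveI : Subsingleton (Fin w → ℂ) := by
        rw [Fintype.card_eq_zero] at hcard
        exact Module.finrank_zero_iff.1 hcard.symm
      exact Basis.empty _
  have hb : ∀ a, b a = x a := by
    intro a
    have hne : Nonempty (Σ i, {x // x ∈ A i}) := ⟨a⟩
    simp only [b, dif_pos hne, coe_basisOfLinearIndependentOfCardEqFinrank]
  refine ⟨b, ⟨fun a => ?_, h0, hQ, hd, fun a c h => ?_⟩, fun a => ?_⟩
  · rw [hb]
    unfold PP
    rw [Matrix.toLin'_apply]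
    exact hx1 a
  · rw [hb, hb] at h
    constructor
    · by_contra hne
      apply h
      have hD := dat hS hC
      have h1 : PP P a.1 (x a) = x a := by
        unfold PP
        rw [Matrix.toLin'_apply]
        exact hx1 a
      rw [← h1, hD.adj]
      have h2 : PP P (st a.1) (x c) = 0 := by
        unfold PP
        rw [Matrix.toLin'_apply]
        exact hP0 _ _ hne
      rw [h2, map_zero]
    · have h1 := om_sim hS φ (x a) (x c)
      rw [hx2, hx2, map_smul, smul_eq_mul, map_smul, LinearMap.smul_apply, smul_eq_mul,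
        ← mul_assoc, hχ, mul_comm (c.2 : ℂ)] at h1
      exact mul_right_cancel₀ h h1
  · rw [hb]
    exact hx2 a

end Pool.Agent.L5helper29.OF
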