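import Pool.Agent.L5helper29.OF.Defs

/-!
# The operators which kill a relative Tate form
-/

set_option autoImplicit false
set_option linter.all false

namespace Pool.Agent.L5helper29.OF

open Matrix Module Finset Pool.Agent.L5helper73.CC
open Pool.Agent.L5helper29.AA (RelM)
open Pool.Agent.L5helper73.TC (Symp om PP mm)
open Pool.Agent.L5helper19.TC (vv map_vv vv_equiv)

section

variable {K : Type} [Field K] {Y : Type} [AddCommGroup Y] [Module K Y]
  {κ : Type} [Fintype κ] [DecidableEq κ]

/-- the commutator -/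
theorem act_bracket (φ : MultilinearMap K (fun _ : κ => Y) K) {X X' : Y →ₗ[K] Y}
    (h : ∀ v, act φ X v = 0) (h' : ∀ v, act φ X' v = 0) (v : κ → Y) :
    act φ (X ∘ₗ X' - X' ∘ₗ X) v = 0 := by
  have key : ∀ (Z Z' : Y →ₗ[K] Y), ∑ l, act φ Z (Function.update v l (Z' (v l))) =
      ∑ l, φ (Function.update v l (Z (Z' (v l)))) +
        ∑ l, ∑ k ∈ univ.erase l, φ (Function.update (Function.update v l (Z' (v l))) k (Z (v k))) := by
    intro Z Z'
    rw [← Finset.sum_add_distrib]
    refine Finset.sum_congr rfl fun l _ => ?_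
    unfold act
    rw [← Finset.add_sum_erase univ _ (Finset.mem_univ l)]
    congr 1
    · rw [Function.update_self, Function.update_idem]
    · refine Finset.sum_congr rfl fun k hk => ?_
      rw [Function.update_of_ne (Finset.ne_of_mem_erase hk)]
  have e1 : ∑ l, act φ X (Function.update v l (X' (v l))) = 0 :=
    Finset.sum_eq_zero fun l _ => h _
  have e2 : ∑ l, act φ X' (Function.update v l (X (v l))) = 0 :=
    Finset.sum_eq_zero fun l _ => h' _
  rw [key] at e1 e2
  have e3 : ∑ l, ∑ k ∈ univ.erase l,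
      φ (Function.update (Function.update v l (X' (v l))) k (X (v k))) =
      ∑ l, ∑ k ∈ univ.erase l,
        φ (Function.update (Function.update v l (X (v l))) k (X' (v k))) := by
    have h1 : ∀ (F : κ → κ → K), ∑ l, ∑ k ∈ univ.erase l, F l k =
        ∑ l, ∑ k, if k = l then 0 else F l k := by
      intro F
      refine Finset.sum_congr rfl fun l _ => ?_
      rw [← Finset.add_sum_erase univ _ (Finset.mem_univ l), if_pos rfl, zero_add]
      refine Finset.sum_congr rfl fun k hk => ?_
      rw [if_neg (Finset.ne_of_mem_erase hk)]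
    rw [h1, h1, Finset.sum_comm]
    refine Finset.sum_congr rfl fun k _ => Finset.sum_congr rfl fun l _ => ?_
    by_cases hkl : k = l
    · rw [if_pos hkl, if_pos hkl.symm]
    · rw [if_neg hkl, if_neg (fun h => hkl h.symm), Function.update_comm (fun h => hkl h.symm)]
  have e4 : act φ (X ∘ₗ X' - X' ∘ₗ X) v =
      ∑ l, φ (Function.update v l (X (X' (v l)))) - ∑ l, φ (Function.update v l (X' (X (v l)))) := by
    unfold act
    rw [← Finset.sum_sub_distrib]
    refine Finset.sum_congr rfl fun l _ => ?_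
    rw [LinearMap.sub_apply, LinearMap.comp_apply, LinearMap.comp_apply, sub_eq_add_neg,
      MultilinearMap.map_update_add, sub_eq_add_neg]
    congr 1
    have := φ.map_update_smul v l (-1) (X' (X (v l)))
    rw [neg_one_smul, neg_one_smul] at this
    exact this
  rw [e4]
  rw [e3] at e1
  linear_combination e1 - e2

end

variable {Γ : Type} [Group Γ] {w u : ℕ} {ρ : Γ →* Matrix (Fin w) (Fin w) ℂ} {χ : Γ →* ℂˣ}
  {ρU : Γ →* Matrix (Fin u) (Fin u) ℂ} {κ : Type} [Fintype κ] [DecidableEq κ] {c : ℕ}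
  {Δ : Subgroup Γ} {T : (κ → Fin w) → Fin u → ℂ}

/-- in terms of the vector valued form -/
theorem kills_iff {X : (Fin w → ℂ) →ₗ[ℂ] (Fin w → ℂ)} :
    Kills T X ↔ ∀ v : κ → Fin w → ℂ, ∑ k, vv T (Function.update v k (X (v k))) = 0 := by
  have h0 : ∀ (f : (Fin u → ℂ) →ₗ[ℂ] ℂ) (v : κ → Fin w → ℂ),
      act (mm fun J => f (T J)) X v = f (∑ k, vv T (Function.update v k (X (v k)))) := by
    intro f v
    unfold act
    rw [map_sum]
    exact Finset.sum_congr rfl fun k _ => (map_vv f T _).symm
  constructor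
  · intro h v
    funext j
    have h1 := h (LinearMap.proj j) v
    rw [h0] at h1
    exact h1
  · intro h f v
    rw [h0, h v, map_zero]

/-- the operators which kill the form -/
def killSub (T : (κ → Fin w) → Fin u → ℂ) : Submodule ℂ ((Fin w → ℂ) →ₗ[ℂ] (Fin w → ℂ)) where
  carrier := {X | Kills T X}
  add_mem' := by
    intro X X' h h' f v
    rw [act_add, h f v, h' f v, add_zero]
  zero_mem' := fun f v => act_zero _ v
  smul_mem' := by
    intro a X h f v
    rw [act_smul, h f v, mul_zero]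

theorem mem_killSub {X : (Fin w → ℂ) →ₗ[ℂ] (Fin w → ℂ)} : X ∈ killSub T ↔ Kills T X := Iff.rfl

theorem kills_bracket {X X' : (Fin w → ℂ) →ₗ[ℂ] (Fin w → ℂ)} (h : Kills T X) (h' : Kills T X') :
    Kills T (X ∘ₗ X' - X' ∘ₗ X) := fun f v => act_bracket _ (h f) (h' f) v

theorem kills_conj (hT : TateOn ρ χ ρU c Δ T) {γ : Γ} (hγ : γ ∈ Δ)
    {X : (Fin w → ℂ) →ₗ[ℂ] (Fin w → ℂ)} (h : Kills T X) :
    Kills T (Matrix.toLin' (ρ γ) ∘ₗ X ∘ₗ Matrix.toLin' (ρ γ⁻¹)) := by
  rw [kills_iff] at h ⊢
  intro v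
  set x : κ → Fin w → ℂ := fun k => (ρ γ⁻¹).mulVec (v k) with hx
  have hv : ∀ k, (ρ γ).mulVec (x k) = v k := by
    intro k
    rw [hx]
    simp only
    rw [Matrix.mulVec_mulVec, ← map_mul, mul_inv_cancel, map_one, Matrix.one_mulVec]
  have h1 : ∀ k, vv T (Function.update v k
      ((Matrix.toLin' (ρ γ) ∘ₗ X ∘ₗ Matrix.toLin' (ρ γ⁻¹)) (v k))) =
      (χ γ : ℂ) ^ c • (ρU γ).mulVec (vv T (Function.update x k (X (x k)))) := by
    intro k
    rw [← vv_equiv (hT γ hγ)]
    congr 1
    funext l
    by_cases hl : l = k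
    · subst hl
      rw [Function.update_self, Function.update_self]
      simp only [LinearMap.comp_apply, Matrix.toLin'_apply, hx]
    · rw [Function.update_of_ne hl, Function.update_of_ne hl, hv]
  rw [Finset.sum_congr rfl fun k _ => h1 k, ← Finset.smul_sum]
  have h2 := map_sum (ρU γ).mulVecLin (fun k => vv T (Function.update x k (X (x k)))) Finset.univ
  simp only [Matrix.mulVecLin_apply] at h2
  rw [← h2, h x, Matrix.mulVec_zero, smul_zero]

end Pool.Agent.L5helper29.OF
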